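import Pool.Agent.H93.GT.Targets
import Pool.Agent.H27.SC.PCC

/-!
GPC: the function of a branch is constant on the classes (after H27/SC/PCC)
-/

set_option autoImplicit false

open Finset

namespace Pool.Agent.H36.GT

open Pool.Agent.H93.GT Pool.Agent.H87.Synth Pool.Agent.H85.SC Finset
open Pool.Agent.H93.ET (sg jj iE iA T_KKL T_CUT T_BRK T_SER T_CRI)
open Pool.Agent.H27.SC (Stay Drop pv_stay pv_drop pv_none pm_ne edge_cases edge_stay edge_top
  edge_next lvl_pow lvl_top lvl_pred lg_pow)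

section

variable {S : Set ℕ} {v a : ℕ → ℕ}

open Classical in
theorem gpc_qv (n i : ℕ) :
    qv v a n i = if Stay v a n i ∨ Drop v a n i then (1 / 2) ^ lvl n i else 0 := by
  unfold qv
  refine if_congr ?_ rfl rfl
  constructor
  · rintro ⟨k, h1, h2 | h2⟩
    · rcases h2.2.lt_or_eq with h | h
      · exact Or.inl ⟨k, h1, h2.1, h⟩
      · exact Or.inr ⟨k, h1, h⟩
    · exact Or.inr ⟨k, h1, h2⟩
  · rintro (⟨k, h1, h2, h3⟩ | ⟨k, h1, h2⟩)
    · exact ⟨k, h1, Or.inl ⟨h2, h3.le⟩⟩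
    · exact ⟨k, h1, Or.inr h2⟩

variable (hB : IsBr S v a)

include hB in
theorem gpc_FA {n i : ℕ} {s z : ℤ} (h : s1 n i z = s ∧ s2 n i z = s ∧ s3 n i z = s) :
    pv v a n i z = qv v a n i * (s : ℂ) := by
  classical
  obtain ⟨h1, h2, h3⟩ := h
  rw [gpc_qv]
  by_cases hs : Stay v a n i
  · rw [if_pos (Or.inl hs), pv_stay hs, h1, h2]; ring
  · by_cases hd : Drop v a n i
    · rw [if_pos (Or.inr hd), pv_drop hB hd, h1, h2, h3]; ring
    · rw [if_neg (by tauto), pv_none hs hd, zero_mul]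

open Classical in
include hB in
theorem gpc_FS {n i : ℕ} {s z : ℤ} (h : s1 n i z = s ∧ s2 n i z = s ∧ s3 n i z = -s) :
    pv v a n i z = if Stay v a n i then (1 / 2) ^ lvl n i * (s : ℂ) else 0 := by
  obtain ⟨h1, h2, h3⟩ := h
  by_cases hs : Stay v a n i
  · rw [if_pos hs, pv_stay hs, h1, h2]; ring
  · rw [if_neg hs]
    by_cases hd : Drop v a n i
    · rw [pv_drop hB hd, h1, h2, h3]; push_cast; ring
    · rw [pv_none hs hd]

open Classical in
include hB in
theorem gpc_FD {n i : ℕ} {s z : ℤ} (g1 : s1 n i z = 1 ∨ s1 n i z = -1)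
    (g2 : s2 n i z = 1 ∨ s2 n i z = -1) (h1 : s1 n i z ≠ s2 n i z) (h3 : s3 n i z = s) :
    pv v a n i z = if Drop v a n i then (1 / 2) ^ (lvl n i + 1) * (s : ℂ) else 0 := by
  have h0 : (s1 n i z : ℂ) + s2 n i z = 0 := by
    have := (pm_ne g1 g2 h1).2
    exact_mod_cast this
  by_cases hd : Drop v a n i
  · rw [if_pos hd, pv_drop hB hd, h0, h3]; ring
  · rw [if_neg hd]
    by_cases hs : Stay v a n i
    · rw [pv_stay hs, h0]; ring
    · rw [pv_none hs hd]

end

theorem gpc_iE (x : ℝ) : iE x = 0 ∨ iE x = 1 := by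
  classical
  unfold iE
  split_ifs
  · exact Or.inl rfl
  · exact Or.inr rfl

theorem gpc_iA (x : ℝ) : iA x = 0 ∨ iA x = 1 := by
  classical
  unfold iA
  split_ifs
  · exact Or.inr rfl
  · exact Or.inl rfl

theorem gpc (h1 : T_GSG) (h2 : T_PRE) (h3 : T_GSZ) : T_GPC := by
  classical
  intro d P S hT v a hB f hf
  have _ := h2
  obtain ⟨hRS, hsg, -⟩ := h1 d P
  obtain ⟨f1, f2⟩ := hf
  have hFA : ∀ {n i : ℕ} {s z : ℤ}, z ∈ P.FA n i s → coeff f z = qv v a n i * (s : ℂ) := by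
    intro n i s z hz
    obtain ⟨hz1, hz2⟩ := Finset.mem_filter.mp hz
    rw [f1 n i z ((hRS n i z).1 hz1), gpc_FA hB hz2]
  have hFS : ∀ {n i : ℕ} {s z : ℤ}, z ∈ P.FS n i s → coeff f z =
      if Stay v a n i then (1 / 2) ^ lvl n i * (s : ℂ) else 0 := by
    intro n i s z hz
    obtain ⟨hz1, hz2⟩ := Finset.mem_filter.mp hz
    rw [f1 n i z ((hRS n i z).1 hz1), gpc_FS hB hz2]
  have hFD : ∀ {n i : ℕ} {s z : ℤ}, z ∈ P.FD n i s → coeff f z =
      if Drop v a n i then (1 / 2) ^ (lvl n i + 1) * (s : ℂ) else 0 := by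
    intro n i s z hz
    obtain ⟨hz1, hz2, hz3⟩ := Finset.mem_filter.mp hz
    have hr := (hRS n i z).1 hz1
    obtain ⟨g1, g2, -⟩ := hsg n i z hr
    rw [f1 n i z hr, gpc_FD hB g1 g2 hz2 hz3]
  have hEM : ∀ {n i : ℕ} {s z : ℤ}, Valid n i → i ≠ 1 → z ∈ P.EM n i s →
      coeff f z = qv v a n i * (s : ℂ) := by
    intro n i s z hV hi hz
    rw [gpc_qv, ite_mul, zero_mul]
    rcases edge_cases n i hV hi with ⟨b, rfl, hb⟩ | ⟨b, n', rfl, rfl, hb⟩ | h
    · have e : P.EM n (2 ^ (b + 1)) s = P.FS n (2 ^ b) s := by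
        unfold Pos.EM
        rw [lg_pow, if_pos rfl, Nat.add_sub_cancel, if_pos hb]
      rw [e] at hz
      rw [hFS hz, lvl_pow, lvl_pow]
      exact if_congr edge_stay.symm rfl rfl
    · have e : P.EM (n' + 2 ^ b) (2 ^ (b + 1)) s = P.FD n' (2 ^ (b + 1) - 1) s := by
        unfold Pos.EM
        rw [lg_pow, if_pos rfl, Nat.add_sub_cancel, if_neg (by omega), Nat.add_sub_cancel]
      rw [e] at hz
      rw [hFD hz, lvl_pow, lvl_top]
      exact if_congr (edge_top hB hb).symm rfl rfl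
    · have e : P.EM n i s = P.FD n (i - 1) s := by
        unfold Pos.EM
        rw [if_neg h]
      rw [e] at hz
      rw [hFD hz, lvl_pred n i hV.1 h]
      exact if_congr (edge_next hV h).symm rfl rfl
  have hAB : ∀ {n i m : ℕ} {s : Bool} {z : ℤ}, Valid n i → i ≠ 1 → m < P.N n i →
      z ∈ P.AB n i m s → coeff f z = qv v a n i * (sg s : ℂ) := by
    intro n i m s z hV hi hm hz
    unfold Pos.AB at hz
    rw [Finset.mem_image] at hz
    obtain ⟨t, ht, rfl⟩ := hz
    exact f2 n i t _ s hV hi ((P.hT n i m hV hi hm).2.1 t ht) (gpc_iA _)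
  have hEB : ∀ {n i m : ℕ} {s : Bool} {z : ℤ}, Valid n i → i ≠ 1 → m < P.N n i →
      z ∈ P.EB n i m s → coeff f z = qv v a n i * (sg s : ℂ) := by
    intro n i m s z hV hi hm hz
    unfold Pos.EB at hz
    rw [Finset.mem_image] at hz
    obtain ⟨t, ht, rfl⟩ := hz
    exact f2 n i t _ s hV hi ((P.hT n i m hV hi hm).2.1 t ht) (gpc_iE _)
  intro c
  suffices hs : ∃ V : ℂ, ∀ z ∈ P.cls S c, coeff f z = V by
    obtain ⟨V, hV⟩ := hs
    intro z hz z' hz'
    rw [hV z hz, hV z' hz']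
  rcases c with ⟨n, i, m, s⟩ | ⟨n, i, s⟩ | ⟨n, i⟩ | ⟨n, i⟩ | ⟨n, i, t, s⟩
  · refine ⟨qv v a n i * (sg s : ℂ), ?_⟩
    intro z hz
    unfold Pos.cls at hz
    dsimp only at hz
    split_ifs at hz with h h'
    · rw [Finset.mem_union] at hz
      rcases hz with hz | hz
      · exact hAB h.2.1 h.2.2.1 h.2.2.2 hz
      · exact hEM h.2.1 h.2.2.1 hz
    · rw [Finset.mem_union] at hz
      rcases hz with hz | hz
      · exact hAB h.2.1 h.2.2.1 h.2.2.2 hz
      · exact hEB h.2.1 h.2.2.1 (by have := h.2.2.2; omega) hz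
    · exact absurd hz (Finset.notMem_empty _)
  · refine ⟨qv v a n i * (sg s : ℂ), ?_⟩
    intro z hz
    unfold Pos.cls at hz
    dsimp only at hz
    split_ifs at hz with h
    · rw [Finset.mem_union] at hz
      rcases hz with hz | hz
      · exact hFA hz
      · have h4 := ((h3 d P).2.2.2.2.2 n i h.2.1 h.2.2).2.1
        exact hEB h.2.1 h.2.2 (by omega) hz
    · exact absurd hz (Finset.notMem_empty _)
  · refine ⟨0, ?_⟩
    intro z hz
    unfold Pos.cls at hz
    dsimp only at hz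
    split_ifs at hz with h
    · have hns : ¬ Stay v a n i := by
        rintro ⟨k, -, h5, -⟩
        exact h.2.2 h5
      rw [Finset.mem_union] at hz
      rcases hz with hz | hz <;> rw [hFS hz, if_neg hns]
    · exact absurd hz (Finset.notMem_empty _)
  · refine ⟨0, ?_⟩
    intro z hz
    unfold Pos.cls at hz
    dsimp only at hz
    split_ifs at hz with h
    · have hns : ¬ Drop v a n i := by
        rintro ⟨k, h5, h6⟩
        apply h.2.2.2
        have := (hB.2.2 k).2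
        rw [h5, h6, ← this]
        exact hB.2.1 (k + 1)
      rw [Finset.mem_union] at hz
      rcases hz with hz | hz <;> rw [hFD hz, if_neg hns]
    · exact absurd hz (Finset.notMem_empty _)
  · refine ⟨qv v a n i * (sg s : ℂ), ?_⟩
    intro z hz
    unfold Pos.cls at hz
    dsimp only at hz
    split_ifs at hz with h
    · rw [Finset.mem_insert, Finset.mem_singleton] at hz
      rcases hz with rfl | rfl
      · exact f2 n i t 0 s h.2.1 h.2.2.1 h.2.2.2.1 (Or.inl rfl)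
      · exact f2 n i t 1 s h.2.1 h.2.2.1 h.2.2.2.1 (Or.inr rfl)
    · exact absurd hz (Finset.notMem_empty _)

end Pool.Agent.H36.GT
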