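import Pool.Agent.H93.GT.Targets

/-!
GPR: the pairing over the stations (after H24/SC/STS and H87/SC/PPR)
-/

set_option autoImplicit false

open Finset

namespace Pool.Agent.H36.GT

open Pool.Agent.H93.GT Pool.Agent.H87.Synth Pool.Agent.H85.SC Finset
open Pool.Agent.H93.ET (sg jj iE iA T_KKL T_CUT T_BRK T_SER T_CRI)

open Classical in
/-- the weight of a station with the exception of the absorbing points of the first station -/
noncomputable def gprG {d : ℕ → ℝ} (P : Pos d) (n i : ℕ) (z : ℤ) : ℂ :=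
  if i = 1 ∧ s1 n i z = s2 n i z ∧ s1 n i z = s3 n i z then 0 else P.wt n i z

theorem gpr_st (hSG : T_GSG) (hCN : T_GCN) (d : ℕ → ℝ) (P : Pos d) (S : Set ℕ) (v a : ℕ → ℕ)
    (hbr : IsBr S v a) (n i : ℕ) (hv : Valid n i) :
    ∑ z ∈ P.RS n i, gprG P n i z * pv v a n i z = if i = 1 then 2 else 0 := by
  classical
  obtain ⟨hRS', hsg, -, -, hsum, -⟩ := hSG d P
  rw [hsum n i (fun z => gprG P n i z * pv v a n i z) hv]
  obtain ⟨hpos, hcard, -⟩ := hCN d P n i hv
  have hc0 : (P.cnt n i : ℂ) ≠ 0 := by exact_mod_cast hpos.ne'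
  have h2 : ((2 : ℂ) ^ lvl n i) ≠ 0 := pow_ne_zero _ (by norm_num)
  have hhalf : ((1 : ℂ) / 2) ^ lvl n i = 1 / (2 : ℂ) ^ lvl n i := by
    rw [div_pow, one_pow]
  have hconst : ∀ (F : Finset ℤ) (c : ℂ), (∀ z ∈ F, gprG P n i z * pv v a n i z = c) →
      ∑ z ∈ F, gprG P n i z * pv v a n i z = F.card * c := by
    intro F c h
    rw [Finset.sum_congr rfl h]
    simp
  have hsq : ∀ s : ℤ, s = 1 ∨ s = -1 → (s : ℂ) * s = 1 := by
    rintro s (rfl | rfl) <;> norm_num
  have hRS : ∀ z ∈ P.RS n i, P.Reg n i z := fun z hz => (hRS' n i z).1 hz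
  have hFA : ∀ s : ℤ, s = 1 ∨ s = -1 → ∀ z ∈ P.FA n i s, s1 n i z = s ∧ s2 n i z = s ∧
      s3 n i z = s ∧ gprG P n i z = if i = 1 then 0 else -((2 : ℂ) ^ lvl n i / P.cnt n i) * s := by
    intro s hs z hz
    obtain ⟨hz1, h1, h2', h3⟩ := Finset.mem_filter.mp hz
    refine ⟨h1, h2', h3, ?_⟩
    unfold gprG
    rw [h1, h2', h3]
    by_cases hi : i = 1
    · simp [hi]
    · simp only [hi, false_and, if_false, Pos.wt, h1, h2', h3]
      push_cast
      rw [hsq s hs, one_mul]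
  have hFS : ∀ s : ℤ, s = 1 ∨ s = -1 → ∀ z ∈ P.FS n i s, s1 n i z = s ∧ s2 n i z = s ∧
      s3 n i z = -s ∧ gprG P n i z = ((2 : ℂ) ^ lvl n i / P.cnt n i) * s := by
    intro s hs z hz
    obtain ⟨hz1, h1, h2', h3⟩ := Finset.mem_filter.mp hz
    refine ⟨h1, h2', h3, ?_⟩
    have hne : ¬ (i = 1 ∧ s1 n i z = s2 n i z ∧ s1 n i z = s3 n i z) := by
      rintro ⟨-, -, h⟩
      rw [h1, h3] at h
      rcases hs with rfl | rfl <;> norm_num at h
    unfold gprG
    rw [if_neg hne]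
    simp only [Pos.wt, h1, h2', h3]
    push_cast
    have := hsq s hs
    linear_combination ((2 : ℂ) ^ lvl n i / P.cnt n i) * s * this
  have hFD : ∀ s : ℤ, s = 1 ∨ s = -1 → ∀ z ∈ P.FD n i s,
      (s1 n i z : ℂ) + s2 n i z = 0 ∧
      s3 n i z = s ∧ gprG P n i z = ((2 : ℂ) ^ lvl n i / P.cnt n i) * s := by
    intro s hs z hz
    obtain ⟨hz1, h1, h3⟩ := Finset.mem_filter.mp hz
    have hr := hRS z hz1
    obtain ⟨ha, hb, -⟩ := hsg n i z hr
    have hsum' : s1 n i z + s2 n i z = 0 := by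
      rcases ha with ha | ha <;> rcases hb with hb | hb <;> rw [ha, hb] at h1 ⊢ <;>
        first | exact absurd rfl h1 | norm_num
    have hprod : s1 n i z * s2 n i z = -1 := by
      rcases ha with ha | ha <;> rcases hb with hb | hb <;> rw [ha, hb] at h1 ⊢ <;>
        first | exact absurd rfl h1 | norm_num
    refine ⟨by exact_mod_cast hsum', h3, ?_⟩
    have hne : ¬ (i = 1 ∧ s1 n i z = s2 n i z ∧ s1 n i z = s3 n i z) := by
      rintro ⟨-, h, -⟩
      exact h1 h
    unfold gprG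
    rw [if_neg hne]
    simp only [Pos.wt, hprod, h3]
    push_cast
    ring
  obtain ⟨cA1, cS1, cD1⟩ := hcard 1 (Or.inl rfl)
  obtain ⟨cA2, cS2, cD2⟩ := hcard (-1) (Or.inr rfl)
  by_cases hP : ∃ k, n = v k ∧ i = 2 ^ lg i ∧ lg i < a k
  · have hpv : ∀ z, pv v a n i z = (1 / 2) ^ lvl n i * (((s1 n i z : ℂ) + s2 n i z) / 2) := by
      intro z
      rw [pv, if_pos hP]
    have eA : ∀ s : ℤ, s = 1 ∨ s = -1 → ∀ z ∈ P.FA n i s, gprG P n i z * pv v a n i z =
        if i = 1 then 0 else -(1 / (P.cnt n i : ℂ)) := by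
      intro s hs z hz
      obtain ⟨h1, h2', h3, hg⟩ := hFA s hs z hz
      rw [hg, hpv, h1, h2', hhalf]
      by_cases hi : i = 1
      · simp [hi]
      · rw [if_neg hi, if_neg hi]
        have := hsq s hs
        field_simp
        linear_combination (-2 : ℂ) * this
    have eS : ∀ s : ℤ, s = 1 ∨ s = -1 → ∀ z ∈ P.FS n i s, gprG P n i z * pv v a n i z =
        1 / (P.cnt n i : ℂ) := by
      intro s hs z hz
      obtain ⟨h1, h2', h3, hg⟩ := hFS s hs z hz
      rw [hg, hpv, h1, h2', hhalf]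
      have := hsq s hs
      field_simp
      linear_combination (2 : ℂ) * this
    have eD : ∀ s : ℤ, s = 1 ∨ s = -1 → ∀ z ∈ P.FD n i s, gprG P n i z * pv v a n i z = 0 := by
      intro s hs z hz
      obtain ⟨h1, h3, hg⟩ := hFD s hs z hz
      rw [hpv, h1]
      simp
    rw [Pos.gA, Pos.gS, Pos.gD, hconst _ _ (eA 1 (Or.inl rfl)), hconst _ _ (eA (-1) (Or.inr rfl)),
      hconst _ _ (eS 1 (Or.inl rfl)), hconst _ _ (eS (-1) (Or.inr rfl)),
      hconst _ _ (eD 1 (Or.inl rfl)), hconst _ _ (eD (-1) (Or.inr rfl)), cA1, cA2, cS1, cS2, cD1,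
      cD2]
    by_cases hi : i = 1
    · simp only [hi, if_true]
      rw [hi] at hc0
      field_simp
      ring
    · simp only [hi, if_false]
      field_simp
      ring
  · by_cases hQ : ∃ k, n = v k ∧ lg i = a k
    · have hpv : ∀ z, pv v a n i z = (1 / 2) ^ lvl n i *
          (((s1 n i z : ℂ) + s2 n i z) / 4 + (s3 n i z : ℂ) / 2) := by
        intro z
        rw [pv, if_neg hP, if_pos hQ]
      have eA : ∀ s : ℤ, s = 1 ∨ s = -1 → ∀ z ∈ P.FA n i s, gprG P n i z * pv v a n i z =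
          if i = 1 then 0 else -(1 / (P.cnt n i : ℂ)) := by
        intro s hs z hz
        obtain ⟨h1, h2', h3, hg⟩ := hFA s hs z hz
        rw [hg, hpv, h1, h2', h3, hhalf]
        by_cases hi : i = 1
        · simp [hi]
        · rw [if_neg hi, if_neg hi]
          have := hsq s hs
          field_simp
          linear_combination (-8 : ℂ) * this
      have eS : ∀ s : ℤ, s = 1 ∨ s = -1 → ∀ z ∈ P.FS n i s,
          gprG P n i z * pv v a n i z = 0 := by
        intro s hs z hz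
        obtain ⟨h1, h2', h3, hg⟩ := hFS s hs z hz
        rw [hg, hpv, h1, h2', h3]
        push_cast
        ring
      have eD : ∀ s : ℤ, s = 1 ∨ s = -1 → ∀ z ∈ P.FD n i s, gprG P n i z * pv v a n i z =
          1 / (2 * (P.cnt n i : ℂ)) := by
        intro s hs z hz
        obtain ⟨h1, h3, hg⟩ := hFD s hs z hz
        rw [hg, hpv, h1, h3, hhalf]
        have := hsq s hs
        field_simp
        linear_combination (4 : ℂ) * this
      rw [Pos.gA, Pos.gS, Pos.gD, hconst _ _ (eA 1 (Or.inl rfl)),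
        hconst _ _ (eA (-1) (Or.inr rfl)),
        hconst _ _ (eS 1 (Or.inl rfl)), hconst _ _ (eS (-1) (Or.inr rfl)),
        hconst _ _ (eD 1 (Or.inl rfl)), hconst _ _ (eD (-1) (Or.inr rfl)), cA1, cA2, cS1, cS2, cD1,
        cD2]
      push_cast
      by_cases hi : i = 1
      · simp only [hi, if_true]
        rw [hi] at hc0
        field_simp
        ring
      · simp only [hi, if_false]
        field_simp
        ring
    · have hpv : ∀ z, pv v a n i z = 0 := by
        intro z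
        rw [pv, if_neg hP, if_neg hQ]
      have hi : i ≠ 1 := by
        intro hi
        have hn0 : n = 0 := by
          have := hv.2
          rw [hi] at this
          simp [lg] at this
          exact this
        have hl : lg i = 0 := by rw [hi]; simp [lg]
        rcases Nat.eq_zero_or_pos (a 0) with h0 | h0
        · exact hQ ⟨0, by rw [hn0, hbr.1], by rw [hl, h0]⟩
        · exact hP ⟨0, by rw [hn0, hbr.1], by rw [hl, hi]; rfl, by rw [hl]; exact h0⟩
      rw [if_neg hi]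
      simp [Pos.gA, Pos.gS, Pos.gD, hpv]

open scoped Classical in
theorem gpr_mem {S : Set ℕ} {M : ℕ} {p : ℕ × ℕ} :
    p ∈ stn S M ↔ (p.1 ∈ Finset.range M ∧ p.2 ∈ Finset.range M) ∧
      p.1 ∈ S ∧ Valid p.1 p.2 ∧ slot p.1 p.2 < M := by
  unfold stn
  rw [Finset.mem_filter, Finset.mem_product]

theorem gpr (h1 : T_GSG) (h2 : T_GCN) (h3 : T_SLT) : T_GPR := by
  classical
  intro d P S hT v a hb F hF M hM
  have _ := h3
  have h2 : ∀ p ∈ stn S M, ∑ z ∈ P.RS p.1 p.2, (if p.2 = 1 ∧ s1 p.1 p.2 z = s2 p.1 p.2 z ∧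
      s1 p.1 p.2 z = s3 p.1 p.2 z then 0 else P.wt p.1 p.2 z) * F z =
      if p.2 = 1 then (2 : ℂ) else 0 := by
    intro p hp
    have hp' : p.1 ∈ S ∧ Valid p.1 p.2 ∧ slot p.1 p.2 < M := (gpr_mem.1 hp).2
    rw [← gpr_st h1 h2 d P S v a hb p.1 p.2 hp'.2.1]
    refine Finset.sum_congr rfl fun z hz => ?_
    have hr : P.Reg p.1 p.2 z := ((h1 d P).1 _ _ z).1 hz
    rw [hF p.1 p.2 z hr]
    unfold gprG
    rfl
  rw [Finset.sum_congr rfl h2]
  have hlg : lg 1 = 0 := by
    unfold lg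
    exact Nat.log_one_right 2
  have h3 : ((0, 1) : ℕ × ℕ) ∈ stn S M := by
    rw [gpr_mem, Finset.mem_range, Finset.mem_range]
    refine ⟨⟨show 0 < M by omega, show 1 < M by omega⟩, hT.1, ⟨le_rfl, ?_⟩, ?_⟩
    · show 0 < 2 ^ lg 1
      rw [hlg]
      norm_num
    · show 1 ^ 2 + 0 < M
      norm_num
      omega
  rw [Finset.sum_eq_single_of_mem (0, 1) h3]
  · rw [if_pos rfl]
  · intro p hp hne
    rw [if_neg]
    intro h4
    have hp' : p.1 ∈ S ∧ Valid p.1 p.2 ∧ slot p.1 p.2 < M := (gpr_mem.1 hp).2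
    have h5 := hp'.2.1.2
    rw [h4, hlg] at h5
    exact hne (Prod.ext (by simpa using h5) h4)

end Pool.Agent.H36.GT
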