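import Pool.Agent.H93.GT.Targets

/-!
GSU: the cut-off sum over the lines of a node
-/

set_option autoImplicit false

open Finset

namespace Pool.Agent.H36.GT

open Pool.Agent.H93.GT Pool.Agent.H87.Synth Pool.Agent.H85.SC Finset
open Pool.Agent.H93.ET (sg jj iE iA T_KKL T_CUT T_BRK T_SER T_CRI)

theorem gsu_valid {n i a : ℕ} (hi : i ∈ Finset.Ico (2 ^ Nat.size n) a) : Valid n i := by
  rw [Finset.mem_Ico] at hi
  have h1 : 0 < 2 ^ Nat.size n := by positivity
  refine ⟨by omega, ?_⟩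
  have h2 : Nat.size n ≤ lg i := by
    unfold lg
    exact Nat.le_log_of_pow_le (by norm_num) hi.1
  exact lt_of_lt_of_le (Nat.lt_size_self n) (Nat.pow_le_pow_right (by norm_num) h2)

theorem gsu_size {n i : ℕ} (h : Valid n i) : 2 ^ Nat.size n ≤ i := by
  have h1 : Nat.size n ≤ lg i := Nat.size_le.2 h.2
  have h2 : 2 ^ lg i ≤ i := Nat.pow_log_le_self 2 (by have := h.1; omega)
  exact (Nat.pow_le_pow_right (by norm_num) h1).trans h2

theorem gsu (h1 : T_GMV) (h2 : T_GIV) (h3 : T_GUQ) (h4 : T_ZON) (h5 : T_GSZ) (h6 : T_GSG)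
    (h7 : T_SLT) (h8 : T_PRE) : T_GSU := by
  classical
  intro d P S hS g hg n hn a ha R hR
  have _ := h7
  have _ := h8
  obtain ⟨B, hB⟩ : ∃ B : ℕ → Finset ℤ, B = fun i => if i = 1 then P.RS n i else
      P.RS n i ∪ (P.IX n i).image (fun x => pp n i x.1 x.2.1 x.2.2) := ⟨_, rfl⟩
  have hix : ∀ {i : ℕ} {x : ℤ × ℤ × Bool}, x ∈ P.IX n i →
      P.g n i x.1 ≠ 0 ∧ (x.2.1 = 0 ∨ x.2.1 = 1) := by
    intro i x hx
    unfold Pos.IX at hx
    simp only [Finset.mem_product, Finset.mem_filter, Finset.mem_insert,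
      Finset.mem_singleton, Finset.mem_univ, and_true] at hx
    exact ⟨hx.1.2, hx.2⟩
  have hmem : ∀ i z, z ∈ B i → P.Reg n i z ∨ (i ≠ 1 ∧ ∃ t κ s, P.g n i t ≠ 0 ∧
      (κ = 0 ∨ κ = 1) ∧ z = pp n i t κ s) := by
    intro i z hz
    rw [hB] at hz
    dsimp only at hz
    split_ifs at hz with hi
    · exact Or.inl ((h6 d P).1 n i z |>.1 hz)
    · rw [Finset.mem_union] at hz
      rcases hz with hz | hz
      · exact Or.inl ((h6 d P).1 n i z |>.1 hz)
      · rw [Finset.mem_image] at hz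
        obtain ⟨x, hx, rfl⟩ := hz
        exact Or.inr ⟨hi, x.1, x.2.1, x.2.2, (hix hx).1, (hix hx).2, rfl⟩
  have hMM : ∀ i z, Valid n i → i < 2 ^ (a + 1) → z ∈ B i → P.MM n a z = 1 := by
    intro i z hi hia hz
    rcases hmem i z hz with h | ⟨h, t, κ, s, hg0, hκ, rfl⟩
    · rw [(h1 d P n a ha).1 n i z h, if_pos ⟨rfl, hia⟩]
    · rw [(h1 d P n a ha).2.1 n i t κ s hi h hg0 hκ, if_pos ⟨rfl, hia⟩]
  have hdisj : ((Finset.Ico (2 ^ Nat.size n) (2 ^ (a + 1)) : Finset ℕ) : Set ℕ).PairwiseDisjoint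
      B := by
    intro i hi j hj hij
    rw [Finset.mem_coe] at hi hj
    have hvi := gsu_valid hi
    have hvj := gsu_valid hj
    rw [Function.onFun, Finset.disjoint_left]
    intro z hz hz'
    apply hij
    rcases hmem i z hz with h | ⟨h, t, κ, s, hg0, hκ, rfl⟩
    · rcases hmem j z hz' with h' | ⟨h', t', κ', s', hg0', hκ', rfl⟩
      · exact ((h3 d P).2.1 n i n j z h h').2
      · exact absurd rfl ((h3 d P).2.2.1 n i _ n j t' κ' s' h hκ')
    · rcases hmem j _ hz' with h' | ⟨h', t', κ', s', hg0', hκ', he⟩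
      · exact absurd rfl ((h3 d P).2.2.1 n j _ n i t κ s h' hκ)
      · exact ((h3 d P).1 n i t κ s n j t' κ' s' hvi h hg0 hκ hvj h' hg0' hκ' he).2.1
  have hsum : ∀ i ∈ Finset.Ico (2 ^ Nat.size n) (2 ^ (a + 1)),
      (∑ z ∈ P.RS n i, g z + if i = 1 then 0 else P.gP g n i) = ∑ z ∈ B i, g z := by
    intro i hi
    have hv := gsu_valid hi
    rw [hB]
    dsimp only
    split_ifs with h
    · rw [add_zero]
    · rw [Finset.sum_union, Finset.sum_image]
      · rfl
      · intro x hx y hy he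
        rw [Finset.mem_coe] at hx hy
        obtain ⟨-, -, e1, e2, e3⟩ := (h3 d P).1 n i x.1 x.2.1 x.2.2 n i y.1 y.2.1 y.2.2 hv h
          (hix hx).1 (hix hx).2 hv h (hix hy).1 (hix hy).2 he
        exact Prod.ext e1 (Prod.ext e2 e3)
      · rw [Finset.disjoint_left]
        intro z hz hz'
        rw [Finset.mem_image] at hz'
        obtain ⟨x, hx, rfl⟩ := hz'
        exact (h3 d P).2.2.1 n i _ n i x.1 x.2.1 x.2.2 (((h6 d P).1 n i _).1 hz) (hix hx).2 rfl
  rw [Finset.sum_congr rfl hsum, ← Finset.sum_biUnion hdisj]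
  symm
  have hmono : ∀ r r', r < r' → 3 * P.X r < P.X r' := by
    intro r r' hr
    have e1 := ((h5 d P).2.2.1 r r' hr).1
    have e2 := (h5 d P).1 r
    omega
  have hsub : (Finset.Ico (2 ^ Nat.size n) (2 ^ (a + 1))).biUnion B ⊆ Finset.Ioo (-R) R := by
    intro z hz
    rw [Finset.mem_biUnion] at hz
    obtain ⟨i, hi, hz⟩ := hz
    have hv := gsu_valid hi
    rw [Finset.mem_Ico] at hi
    have hsl : slot n i < slot n (2 ^ (a + 1) - 1) + 1 := by
      unfold slot
      have h10 : i ≤ 2 ^ (a + 1) - 1 := by omega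
      have h11 := Nat.pow_le_pow_left h10 2
      omega
    have hX := hmono _ _ hsl
    have hX0 := (h5 d P).1 (slot n i)
    have habs : |z| ≤ 3 * (P.X (slot n i) : ℤ) := by
      rcases hmem i z hz with h | ⟨h, t, κ, s, hg0, hκ, rfl⟩
      · have e := (h4 d P).2.1 n i z h
        rw [abs_le]
        constructor <;> omega
      · exact ((h4 d P).1 n i t κ s hv h hg0 hκ).2
    have hlt : |z| < R := by
      rw [hR]
      omega
    rw [Finset.mem_Ioo]
    exact abs_lt.1 hlt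
  have heq : ∀ z ∈ (Finset.Ico (2 ^ Nat.size n) (2 ^ (a + 1))).biUnion B,
      g z = P.MM n a z * g z := by
    intro z hz
    rw [Finset.mem_biUnion] at hz
    obtain ⟨i, hi, hz⟩ := hz
    rw [hMM i z (gsu_valid hi) (Finset.mem_Ico.1 hi).2 hz, one_mul]
  rw [Finset.sum_congr rfl heq]
  refine Finset.sum_subset hsub ?_
  intro z _ hzB
  by_contra hne
  have hM0 : P.MM n a z ≠ 0 := left_ne_zero_of_mul hne
  have hg0 : g z ≠ 0 := right_ne_zero_of_mul hne
  have hcl : ∃ c, z ∈ P.cls S c := by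
    by_contra hcon
    rw [not_exists] at hcon
    exact hg0 (hg z hcon)
  obtain ⟨c, hc⟩ := hcl
  apply hzB
  rw [Finset.mem_biUnion]
  rcases h2 d P S hS c z hc with ⟨n', i, -, hr⟩ | ⟨n', i, t, κ, s, -, hv, hi1, hgt, hκ, rfl⟩
  · rw [(h1 d P n a ha).1 n' i z hr] at hM0
    split_ifs at hM0 with h
    · obtain ⟨e, hia⟩ := h
      subst e
      refine ⟨i, Finset.mem_Ico.2 ⟨gsu_size hr.1, hia⟩, ?_⟩
      rw [hB]
      dsimp only
      split_ifs
      · exact ((h6 d P).1 n' i z).2 hr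
      · exact Finset.mem_union_left _ (((h6 d P).1 n' i z).2 hr)
    · exact absurd rfl hM0
  · rw [(h1 d P n a ha).2.1 n' i t κ s hv hi1 hgt hκ] at hM0
    split_ifs at hM0 with h
    · obtain ⟨e, hia⟩ := h
      subst e
      refine ⟨i, Finset.mem_Ico.2 ⟨gsu_size hv, hia⟩, ?_⟩
      rw [hB]
      dsimp only
      rw [if_neg hi1]
      refine Finset.mem_union_right _ ?_
      rw [Finset.mem_image]
      refine ⟨(t, κ, s), ?_, rfl⟩
      unfold Pos.IX
      simp only [Finset.mem_product, Finset.mem_filter, Finset.mem_insert,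
        Finset.mem_singleton, Finset.mem_univ, and_true]
      refine ⟨⟨?_, hgt⟩, hκ⟩
      have e := (P.gsupp n' i t hv hi1 hgt).2
      rw [Finset.mem_Ioo]
      exact abs_lt.1 e
    · exact absurd rfl hM0

end Pool.Agent.H36.GT
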